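import Pool.Agent.Y696.CTE.Stm
import Pool.Agent.Y699.E.Sym

/-!
The cubic residue symbol as a character modulo `3 D`, trivial on the units.
-/

set_option autoImplicit false

namespace Pool.Agent.Y779.CTE

open NumberField
open Pool.Agent.Y692.QS
open Pool.Agent.Y715.T.RecG (Pq cs_congr cs_mul cs_one)
open Pool.Agent.Y715.T.Rec (cs)
open Pool.Agent.Y703.CT

lemma nr_ndvd {x v : Ei} (h : (3 : Ei) ∣ x * v - 1) : ¬ (3 : ℤ) ∣ nr x := by
  intro hd
  have h1 : (3 : ℤ) ∣ nr (x * v) := by rw [nr_mul]; exact hd.mul_right _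
  obtain ⟨k, hk⟩ := h
  have e : x * v = 1 + 3 * k := by linear_combination hk
  have a1 : (3 : Ei).re = 3 := by decide
  have a2 : (3 : Ei).im = 0 := by decide
  have a3 : (1 : Ei).re = 1 := by decide
  have a4 : (1 : Ei).im = 0 := by decide
  have er : (1 + 3 * k : Ei).re = 1 + 3 * k.re := by
    rw [QuadraticAlgebra.re_add, mul_re, a1, a2, a3]; ring
  have ei : (1 + 3 * k : Ei).im = 3 * k.im := by
    rw [QuadraticAlgebra.im_add, mul_im, a1, a2, a4]; ring
  have e2 : nr (x * v) = 1 + 3 * (2 * k.re + 3 * k.re ^ 2 - k.im - 3 * k.re * k.im +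
      3 * k.im ^ 2) := by
    rw [e, nr, er, ei]; ring
  rw [e2] at h1
  omega

lemma ns_dvd {π x : Ei} (hx : ¬ (3 : ℤ) ∣ nr x) (h : π ∣ ns x) : π ∣ x := by
  have h1 := (ep_cases x hx).2
  have h2 : ep x * ns x = x := by
    unfold ns
    rw [← mul_assoc, mul_comm (ep x), h1, one_mul]
  rw [← h2]
  exact h.mul_left _

lemma ns_sub {x y : Ei} (h : (3 : Ei) ∣ x - y) : ns x - ns y = star (ep x) * (x - y) := by
  unfold ns
  rw [ep_per h]
  ring

section

variable {J : Type} [Fintype J] {π : J → Ei}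

/-- the sum of the symbols -/
noncomputable def gg (π : J → Ei) (x : Ei) : ZMod 3 := ∑ i, cs (π i) (ns x)

/-- prime to `3 D` -/
def cop (π : J → Ei) (x : Ei) : Prop := ¬ (3 : ℤ) ∣ nr x ∧ ∀ i, ¬ π i ∣ x

lemma gg_congr (hD : Dt π (fun _ => 1)) {x y : Ei} (hx : cop π x) (h3 : (3 : Ei) ∣ x - y)
    (hi : ∀ i, π i ∣ x - y) : gg π x = gg π y := by
  unfold gg
  refine Finset.sum_congr rfl fun i _ => ?_
  refine cs_congr (hD.pq i).prime (hD.pq i).norm (fun h => hx.2 i (ns_dvd hx.1 h)) ?_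
  rw [ns_sub h3]
  exact (hi i).mul_left _

lemma gg_mul (hD : Dt π (fun _ => 1)) {x y : Ei} (hx : cop π x) (hy : cop π y) :
    gg π (x * y) = gg π x + gg π y := by
  unfold gg
  rw [← Finset.sum_add_distrib]
  refine Finset.sum_congr rfl fun i _ => ?_
  rw [ns_mul]
  exact cs_mul (hD.pq i).prime (hD.pq i).norm (fun h => hx.2 i (ns_dvd hx.1 h))
    (fun h => hy.2 i (ns_dvd hy.1 h))

lemma gg_unit (z α : Ei) (hz : IsUnit z) (hα : (3 : Ei) ∣ α - 1) :
    gg π (z * α) = ∑ i, cs (π i) α := by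
  unfold gg
  rw [ns_mul, ns_unit hz, ns_fix hα, one_mul]

lemma cop_of (hD : Dt π (fun _ => 1)) {x v : Ei}
    (h : 3 * pD π (fun _ => 1) ∣ x * v - 1) : cop π x := by
  refine ⟨nr_ndvd ((dvd_mul_right _ _).trans h), fun i hd => ?_⟩
  have h1 : π i ∣ 3 * pD π (fun _ => 1) := by
    refine Dvd.dvd.mul_left ?_ _
    refine dvd_trans ?_ (Finset.dvd_prod_of_mem _ (Finset.mem_univ i))
    exact dvd_pow_self _ (by show (1 : ZMod 3).val ≠ 0; decide)
  have h2 := dvd_sub (hd.mul_right v) (h1.trans h)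
  rw [sub_sub_cancel] at h2
  exact (hD.pq i).prime.not_isUnit (isUnit_of_dvd_one h2)

lemma pi_dvd (i : J) : π i ∣ 3 * pD π (fun _ => 1) := by
  refine Dvd.dvd.mul_left ?_ _
  refine dvd_trans ?_ (Finset.dvd_prod_of_mem _ (Finset.mem_univ i))
  exact dvd_pow_self _ (by show (1 : ZMod 3).val ≠ 0; decide)

/-- an element congruent to one modulo `3` with prescribed symbols -/
lemma exists_alpha (hD : Dt π (fun _ => 1)) (i₀ : J) :
    ∃ α β : Ei, (3 : Ei) ∣ α - 1 ∧ 3 * pD π (fun _ => 1) ∣ α * β - 1 ∧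
      ∑ i, cs (π i) α ≠ 0 := by
  classical
  obtain ⟨b, hb, hcb⟩ := Pool.Agent.Y699.E.exists_nonres (hD.pq i₀)
  set M : Ei := 3 * ∏ i ∈ Finset.univ.erase i₀, π i with hM
  have hcop : IsCoprime (π i₀) M := by
    rw [(hD.pq i₀).prime.irreducible.coprime_iff_not_dvd, hM]
    intro h
    rcases (hD.pq i₀).prime.dvd_or_dvd h with h | h
    · exact (hD.pq i₀).norm h
    · obtain ⟨i, hi, hd⟩ := (Prime.dvd_finsetProd_iff (hD.pq i₀).prime _).1 h
      exact hD.nd i i₀ (Finset.ne_of_mem_erase hi) hd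
  have hDM : 3 * pD π (fun _ => 1) = π i₀ * M := by
    have h1 : pD π (fun _ => 1) = ∏ i, π i := by
      unfold pD
      refine Finset.prod_congr rfl fun i _ => ?_
      have : (1 : ZMod 3).val = 1 := by decide
      rw [this, pow_one]
    rw [h1, hM, ← Finset.mul_prod_erase Finset.univ π (Finset.mem_univ i₀)]
    ring
  obtain ⟨u, v, huv⟩ := hcop
  set α : Ei := b * (v * M) + u * π i₀ with hα
  have h1 : π i₀ ∣ α - b := ⟨u - b * u, by rw [hα]; linear_combination b * huv⟩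
  have h2 : M ∣ α - 1 := ⟨b * v - v, by rw [hα]; linear_combination huv⟩
  have h3 : ¬ π i₀ ∣ α := by
    intro hd
    apply hb
    have := dvd_sub hd h1
    rwa [sub_sub_cancel] at this
  have h4 : (3 : Ei) ∣ α - 1 := (dvd_mul_right _ _).trans h2
  have c1 : IsCoprime α (π i₀) :=
    (((hD.pq i₀).prime.irreducible.coprime_iff_not_dvd).2 h3).symm
  have c2 : IsCoprime α M := by
    obtain ⟨k, hk⟩ := h2
    exact ⟨1, -k, by linear_combination hk⟩
  obtain ⟨β, δ, hβ⟩ := c1.mul_right c2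
  refine ⟨α, β, h4, ?_, ?_⟩
  · rw [hDM]
    exact ⟨-δ, by linear_combination hβ⟩
  · have h5 : ∀ i ∈ Finset.univ, i ≠ i₀ → cs (π i) α = 0 := by
      intro i _ hne
      have h6 : π i ∣ α - 1 := by
        refine dvd_trans ?_ h2
        rw [hM]
        refine Dvd.dvd.mul_left ?_ _
        exact Finset.dvd_prod_of_mem _ (Finset.mem_erase.2 ⟨hne, Finset.mem_univ i⟩)
      have h7 : ¬ π i ∣ α := by
        intro hd
        have := dvd_sub hd h6
        rw [sub_sub_cancel] at this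
        exact (hD.pq i).prime.not_isUnit (isUnit_of_dvd_one this)
      rw [cs_congr (hD.pq i).prime (hD.pq i).norm h7 h6, cs_one (hD.pq i).prime (hD.pq i).norm]
    rw [Finset.sum_eq_single i₀ h5 (fun h => absurd (Finset.mem_univ _) h)]
    rw [cs_congr (hD.pq i₀).prime (hD.pq i₀).norm h3 h1]
    exact hcb

end

theorem art : Pool.Agent.Y696.CTE.S_ART := by
  intro K _ _ j J _ π hD h9
  set N : Ei := 3 * pD π (fun _ => 1) with hN
  have hmk : ∀ a b : Ei, Ideal.Quotient.mk (Ideal.span {j N}) (j a) =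
      Ideal.Quotient.mk (Ideal.span {j N}) (j b) ↔ N ∣ a - b := by
    intro a b
    rw [Ideal.Quotient.eq, Ideal.mem_span_singleton, ← map_sub]
    constructor
    · intro h
      have h1 := map_dvd j.symm h
      rwa [j.symm_apply_apply, j.symm_apply_apply] at h1
    · intro h
      exact map_dvd j h
  have hmm : ∀ a b : Ei, Ideal.Quotient.mk (Ideal.span {j N}) (j (a * b)) =
      Ideal.Quotient.mk (Ideal.span {j N}) (j a) * Ideal.Quotient.mk (Ideal.span {j N}) (j b) :=
    fun a b => by rw [← map_mul, ← map_mul]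
  have hm1 : Ideal.Quotient.mk (Ideal.span {j N}) (j 1) = 1 := by rw [map_one j, map_one]
  have hlift : ∀ u : (𝓞 K ⧸ Ideal.span {j N})ˣ, ∃ x : Ei,
      Ideal.Quotient.mk (Ideal.span {j N}) (j x) = u := by
    intro u
    obtain ⟨y, hy⟩ := Ideal.Quotient.mk_surjective (u : 𝓞 K ⧸ Ideal.span {j N})
    exact ⟨j.symm y, by rw [j.apply_symm_apply, hy]⟩
  choose l hl using hlift
  have hcop : ∀ (u : (𝓞 K ⧸ Ideal.span {j N})ˣ) (x : Ei),
      Ideal.Quotient.mk (Ideal.span {j N}) (j x) = u → cop π x := by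
    intro u x hx
    refine cop_of hD (v := l u⁻¹) ?_
    rw [← hN, ← hmk, hmm, hx, hl, hm1, Units.mul_inv]
  have hg : ∀ (u : (𝓞 K ⧸ Ideal.span {j N})ˣ) (x : Ei),
      Ideal.Quotient.mk (Ideal.span {j N}) (j x) = u → gg π (l u) = gg π x := by
    intro u x hx
    have h1 : N ∣ l u - x := (hmk _ _).1 ((hl u).trans hx.symm)
    exact gg_congr hD (hcop u _ (hl u)) ((dvd_mul_right _ _).trans h1)
      (fun i => (pi_dvd i).trans h1)
  refine ⟨{ toFun := fun u => Multiplicative.ofAdd (gg π (l u))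
            map_one' := ?_
            map_mul' := ?_ }, ?_, ?_⟩
  · have h1 := hg 1 (1 * 1) (by rw [mul_one]; exact hm1)
    rw [h1, gg_unit 1 1 isUnit_one (by rw [sub_self]; exact dvd_zero _)]
    rw [Finset.sum_eq_zero fun i _ => cs_one (hD.pq i).prime (hD.pq i).norm]
    rfl
  · intro u v
    have h1 := hg (u * v) (l u * l v) (by rw [hmm, hl, hl]; rfl)
    rw [h1, gg_mul hD (hcop u _ (hl u)) (hcop v _ (hl v))]
    rfl
  · -- surjectivity
    have hJ : Nonempty J := by
      by_contra hne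
      rw [not_nonempty_iff] at hne
      apply h9
      have : pD π (fun _ => 1) = 1 := by unfold pD; exact Fintype.prod_empty _
      rw [this, nr_one]
      norm_num
    obtain ⟨i₀⟩ := hJ
    obtain ⟨α, β, ha, hb, hs⟩ := exists_alpha hD i₀
    have hu1 : Ideal.Quotient.mk (Ideal.span {j N}) (j α) *
        Ideal.Quotient.mk (Ideal.span {j N}) (j β) = 1 := by
      rw [← hmm, ← hm1, hmk]
      exact hb
    set u : (𝓞 K ⧸ Ideal.span {j N})ˣ := ⟨_, _, hu1, by rw [mul_comm]; exact hu1⟩ with hu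
    set f : (𝓞 K ⧸ Ideal.span {j N})ˣ →* Multiplicative (ZMod 3) :=
      { toFun := fun u => Multiplicative.ofAdd (gg π (l u)), map_one' := _, map_mul' := _ } with hf
    have hfu : f u = Multiplicative.ofAdd (∑ i, cs (π i) α) := by
      show Multiplicative.ofAdd (gg π (l u)) = _
      rw [hg u (1 * α) (by rw [one_mul]), gg_unit 1 α isUnit_one ha]
    intro c
    have h3 : ∃ k : ℕ, (k : ZMod 3) * (∑ i, cs (π i) α) = Multiplicative.toAdd c := by
      generalize (∑ i, cs (π i) α) = t at hs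
      generalize Multiplicative.toAdd c = s
      refine ⟨(s * t).val, ?_⟩
      rw [ZMod.natCast_zmod_val]
      revert s t
      decide
    obtain ⟨k, hk⟩ := h3
    refine ⟨u ^ k, ?_⟩
    rw [map_pow, hfu, ← ofAdd_nsmul, nsmul_eq_mul, hk]
    rfl
  · intro u z α hz hα hu
    show Multiplicative.ofAdd (gg π (l u)) = _
    rw [hg u (z * α) hu.symm, gg_unit z α hz hα]

end Pool.Agent.Y779.CTE
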